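import Pool.Agent.helper53.BND.SpecL

/-!
# Project bnd (MP_376aaf_an), row bnd:LW0: loops of invertible matrices without winding number have class 0
-/

set_option autoImplicit false

open scoped Topology Matrix
open Filter Finset

namespace Pool.Agent.BND

open Pool.Agent.CZ Pool.Agent.PV

/-- the loop `z` as an invertible `1 × 1` matrix -/
noncomputable def LW0_z : (Matrix Unit Unit C(UnitAddCircle, ℂ))ˣ :=
  Units.map ((Matrix.scalar Unit : C(UnitAddCircle, ℂ) →+* Matrix Unit Unit C(UnitAddCircle, ℂ)) :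
    C(UnitAddCircle, ℂ) →* Matrix Unit Unit C(UnitAddCircle, ℂ)) (zU ℂ)

theorem LW0_z_val : (LW0_z : Matrix Unit Unit C(UnitAddCircle, ℂ)) = Matrix.of (fun _ _ => zl ℂ) := by
  change Matrix.scalar Unit (zl ℂ) = _
  ext i j
  rw [Matrix.scalar_apply, Matrix.diagonal_apply]
  rfl

theorem LW0_detU_z : detU LW0_z = LW0_z := by
  apply Units.ext
  change Matrix.scalar Unit ((LW0_z : Matrix Unit Unit C(UnitAddCircle, ℂ)).det) = (LW0_z : Matrix Unit Unit C(UnitAddCircle, ℂ))
  have h : (LW0_z : Matrix Unit Unit C(UnitAddCircle, ℂ)).det = zl ℂ := by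
    rw [Matrix.det_unique, LW0_z_val]
    rfl
  rw [h]
  rfl

/-- the function `exp (τ μ)` -/
noncomputable def LW0_e (μ : C(UnitAddCircle, ℂ)) (τ : ℝ) : C(UnitAddCircle, ℂ) :=
  ⟨fun t => Complex.exp ((τ : ℂ) * μ t), Complex.continuous_exp.comp (continuous_const.mul μ.continuous)⟩

theorem LW0_e_unit (μ : C(UnitAddCircle, ℂ)) (τ : ℝ) : IsUnit (LW0_e μ τ) := by
  refine IsUnit.of_mul_eq_one (LW0_e μ (-τ)) ?_
  ext t
  change Complex.exp ((τ : ℂ) * μ t) * Complex.exp (((-τ : ℝ) : ℂ) * μ t) = 1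
  rw [← Complex.exp_add]
  push_cast
  rw [← add_mul]
  simp

theorem LW0_e_cont (μ : C(UnitAddCircle, ℂ)) : Continuous (fun τ : ℝ => LW0_e μ τ) := by
  apply ContinuousMap.continuous_of_continuous_uncurry
  change Continuous (fun p : ℝ × UnitAddCircle => Complex.exp ((p.1 : ℂ) * μ p.2))
  exact Complex.continuous_exp.comp ((Complex.continuous_ofReal.comp continuous_fst).mul (μ.continuous.comp continuous_snd))

/-- ROW bnd:LW0 -/
theorem LW0 (hLD1 : LD1_stmt) (hKS : KS_stmt) (hK1M : K1M_stmt) : LW0_stmt := by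
  intro ι _ _ g μ hμ
  obtain ⟨D, hD⟩ := hLD1 C(UnitAddCircle, ℂ)
  obtain ⟨-, h2, h3⟩ := hKS
  obtain ⟨n, hn⟩ := h2 (k1 g)
  have hg : k1 g = n • k1 LW0_z := hn LW0_z LW0_z_val
  have hz : D (k1 LW0_z) = k1 LW0_z := by
    rw [hD, LW0_detU_z]
  have hdet : k1 (detU g) = 0 := by
    obtain ⟨-, -, hone, hpath⟩ := hK1M C(UnitAddCircle, ℂ) Unit (detU g) 1
    rw [← hone]
    apply hpath
    refine ⟨⟨fun τ : unitInterval => Matrix.scalar Unit (LW0_e μ (1 - (τ : ℝ))), ?_⟩, ?_, ?_, ?_⟩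
    · refine continuous_matrix ?_
      intro i j
      have h : (fun τ : unitInterval => Matrix.scalar Unit (LW0_e μ (1 - (τ : ℝ))) i j) =
          fun τ : unitInterval => LW0_e μ (1 - (τ : ℝ)) := by
        funext τ
        rw [Matrix.scalar_apply, Matrix.diagonal_apply, if_pos (Subsingleton.elim i j)]
      rw [h]
      exact (LW0_e_cont μ).comp (continuous_const.sub continuous_subtype_val)
    · intro τ
      exact (LW0_e_unit μ (1 - (τ : ℝ))).map (Matrix.scalar Unit : C(UnitAddCircle, ℂ) →+* Matrix Unit Unit C(UnitAddCircle, ℂ))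
    · change Matrix.scalar Unit (LW0_e μ (1 - ((0 : unitInterval) : ℝ))) =
        Matrix.scalar Unit ((g : Matrix ι ι C(UnitAddCircle, ℂ)).det)
      congr 1
      ext t
      rw [hμ t]
      change Complex.exp (((1 - ((0 : unitInterval) : ℝ) : ℝ) : ℂ) * μ t) = _
      simp
    · change Matrix.scalar Unit (LW0_e μ (1 - ((1 : unitInterval) : ℝ))) = 1
      have h : LW0_e μ (1 - ((1 : unitInterval) : ℝ)) = 1 := by
        ext t
        change Complex.exp (((1 - ((1 : unitInterval) : ℝ) : ℝ) : ℂ) * μ t) = 1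
        simp
      rw [h, map_one]
  have h0 : n • k1 LW0_z = 0 := by
    rw [← hz, ← map_zsmul, ← hg, hD, hdet]
  have hn0 : n = 0 := h3 n LW0_z LW0_z_val h0
  rw [hg, hn0, zero_smul]

end Pool.Agent.BND
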